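import Mathlib

/-!
Chebyshev-type trigonometric quadrature: the least number of nodes is not stable under
multiplication of the weight by a function with values between two positive constants.
-/

open Real MeasureTheory

namespace Pool.Agent.Results.MP_205740_an.NodeCountJump

/-- `W` is a `2π`-periodic weight function. -/
structure IsWeight (W : ℝ → ℝ) : Prop where
  measurable : Measurable W
  nonneg : ∀ θ, 0 ≤ W θ
  periodic : Function.Periodic W (2 * π)
  integrable : IntervalIntegrable W volume (-π) π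
  integral_pos : 0 < ∫ θ in (-π)..π, W θ

/-- Real trigonometric polynomials of degree at most `n`. -/
def trigPoly (n : ℕ) : Submodule ℝ (ℝ → ℝ) :=
  Submodule.span ℝ
    ({f | ∃ k : ℕ, k ≤ n ∧ f = fun θ : ℝ => Real.cos (k * θ)} ∪
     {f | ∃ k : ℕ, k ≤ n ∧ f = fun θ : ℝ => Real.sin (k * θ)})

/-- There is a Chebyshev-type trigonometric quadrature of degree `n` for `W` with `N` nodes. -/
def HasQuad (W : ℝ → ℝ) (n N : ℕ) : Prop :=
  ∃ (t : Fin N → ℝ) (lam : ℝ), Monotone t ∧
    ∀ p ∈ trigPoly n, ∫ θ in (-π)..π, p θ * W θ = lam * ∑ i, p (t i)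

/-- The least number of nodes (`⊤` if there is no quadrature). -/
noncomputable def minNodes (W : ℝ → ℝ) (n : ℕ) : ℕ∞ :=
  ⨅ (N : ℕ) (_ : HasQuad W n N), (N : ℕ∞)

/-- The least `N₀` such that there is a quadrature with `N` nodes for every `N ≥ N₀`. -/
noncomputable def minAllNodes (W : ℝ → ℝ) (n : ℕ) : ℕ∞ :=
  ⨅ (N₀ : ℕ) (_ : ∀ N, N₀ ≤ N → HasQuad W n N), (N₀ : ℕ∞)

/-- The weight used below: `max (s² - sin² θ) 0`. -/
noncomputable def Wt (s : ℝ) (θ : ℝ) : ℝ := max (s ^ 2 - Real.sin θ ^ 2) 0

/-- The multiplier used below. -/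
noncomputable def ht (a b : ℝ) (θ : ℝ) : ℝ := if 0 < Real.cos θ then a else b

theorem Wt_cont (s : ℝ) : Continuous (Wt s) := by
  unfold Wt; fun_prop

theorem Wt_nonneg (s θ : ℝ) : 0 ≤ Wt s θ := le_max_right _ _

theorem Wt_add_pi (s θ : ℝ) : Wt s (θ + π) = Wt s θ := by
  unfold Wt; rw [Real.sin_add_pi]; simp

theorem Wt_neg (s θ : ℝ) : Wt s (-θ) = Wt s θ := by
  unfold Wt; rw [Real.sin_neg]; simp

theorem Wt_le {s : ℝ} (θ : ℝ) : Real.sin θ ^ 2 * Wt s θ ≤ s ^ 2 * Wt s θ := by
  rcases le_total (s ^ 2 - Real.sin θ ^ 2) 0 with h | h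
  · have : Wt s θ = 0 := max_eq_right h
    rw [this]; simp
  · exact mul_le_mul_of_nonneg_right (by linarith) (Wt_nonneg s θ)

theorem Wt_isWeight {s : ℝ} (hs : 0 < s) : IsWeight (Wt s) where
  measurable := (Wt_cont s).measurable
  nonneg := Wt_nonneg s
  periodic := by
    intro θ
    have : θ + 2 * π = θ + π + π := by ring
    rw [this, Wt_add_pi, Wt_add_pi]
  integrable := (Wt_cont s).intervalIntegrable _ _
  integral_pos := by
    apply intervalIntegral.integral_pos (by linarith [Real.pi_pos]) (Wt_cont s).continuousOn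
    · intro x _; exact Wt_nonneg s x
    · refine ⟨0, ⟨by linarith [Real.pi_pos], by linarith [Real.pi_pos]⟩, ?_⟩
      unfold Wt
      rw [Real.sin_zero]
      have : (0 : ℝ) < s ^ 2 := by positivity
      exact lt_max_of_lt_left (by simpa using this)

/-- integral over a period is invariant under the shift by `π` -/
theorem integral_shift {g : ℝ → ℝ} (hg : Function.Periodic g (2 * π)) :
    ∫ θ in (-π)..π, g (θ + π) = ∫ θ in (-π)..π, g θ := by
  rw [intervalIntegral.integral_comp_add_right]
  have h := hg.intervalIntegral_add_eq (-π + π) (-π)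
  rw [show -π + π + 2 * π = π + π by ring, show -π + 2 * π = π by ring] at h
  exact h

theorem integral_odd {g : ℝ → ℝ} (hg : ∀ θ, g (-θ) = - g θ) :
    ∫ θ in (-π)..π, g θ = 0 := by
  have h := intervalIntegral.integral_comp_neg (a := -π) (b := π) g
  rw [neg_neg] at h
  simp only [hg, intervalIntegral.integral_neg] at h
  linarith

theorem integral_antiperiodic {g : ℝ → ℝ} (hg : ∀ θ, g (θ + π) = - g θ) :
    ∫ θ in (-π)..π, g θ = 0 := by
  have hp : Function.Periodic g (2 * π) := by
    intro θ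
    rw [show θ + 2 * π = θ + π + π by ring, hg, hg, neg_neg]
  have h := integral_shift hp
  simp only [hg, intervalIntegral.integral_neg] at h
  linarith

theorem continuous_of_mem {n : ℕ} {p : ℝ → ℝ} (hp : p ∈ trigPoly n) : Continuous p := by
  induction hp using Submodule.span_induction with
  | mem f hf =>
    rcases hf with (⟨k, hk, rfl⟩ | ⟨k, hk, rfl⟩)
    · fun_prop
    · fun_prop
  | zero => exact continuous_const
  | add f g hf hg ihf ihg => exact ihf.add ihg
  | smul a f hf ihf => exact continuous_const.smul ihf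

/-- It is enough to check a quadrature formula on the spanning set. -/
theorem quad_of_basis {W : ℝ → ℝ} (hW : IsWeight W) {n N : ℕ} (t : Fin N → ℝ) (lam : ℝ)
    (hc : ∀ k : ℕ, k ≤ n → ∫ θ in (-π)..π, Real.cos (k * θ) * W θ =
      lam * ∑ i, Real.cos (k * t i))
    (hsn : ∀ k : ℕ, k ≤ n → ∫ θ in (-π)..π, Real.sin (k * θ) * W θ =
      lam * ∑ i, Real.sin (k * t i)) :
    ∀ p ∈ trigPoly n, ∫ θ in (-π)..π, p θ * W θ = lam * ∑ i, p (t i) := by
  intro p hp
  have hint : ∀ q : ℝ → ℝ, Continuous q →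
      IntervalIntegrable (fun θ => q θ * W θ) volume (-π) π := by
    intro q hq
    exact hW.integrable.continuousOn_mul hq.continuousOn
  induction hp using Submodule.span_induction with
  | mem f hf =>
    rcases hf with (⟨k, hk, rfl⟩ | ⟨k, hk, rfl⟩)
    · exact hc k hk
    · exact hsn k hk
  | zero => simp
  | add f g hf hg ihf ihg =>
    have e : (fun θ => (f + g) θ * W θ) = fun θ => f θ * W θ + g θ * W θ := by
      ext θ; simp [add_mul]
    rw [e, intervalIntegral.integral_add (hint f (continuous_of_mem hf))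
      (hint g (continuous_of_mem hg)), ihf, ihg]
    simp [Finset.sum_add_distrib, mul_add]
  | smul a f hf ihf =>
    have e : (fun θ => (a • f) θ * W θ) = fun θ => a * (f θ * W θ) := by
      ext θ; simp [mul_assoc]
    rw [e, intervalIntegral.integral_const_mul, ihf]
    simp only [Pi.smul_apply, smul_eq_mul, ← Finset.mul_sum]
    ring

/-- `Wt s` has a four point formula of degree `2`. -/
theorem quad_four {s : ℝ} (hs : 0 < s) : HasQuad (Wt s) 2 4 := by
  set I := ∫ θ in (-π)..π, Wt s θ with hI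
  have hIpos : 0 < I := (Wt_isWeight hs).integral_pos
  set J := ∫ θ in (-π)..π, Real.cos (2 * θ) * Wt s θ with hJ
  have hint : ∀ q : ℝ → ℝ, Continuous q →
      IntervalIntegrable (fun θ => q θ * Wt s θ) volume (-π) π := by
    intro q hq
    exact (hq.mul (Wt_cont s)).intervalIntegrable _ _
  have hJ1 : J ≤ I := by
    apply intervalIntegral.integral_mono_on (by linarith [Real.pi_pos])
      (hint _ (by fun_prop)) ((Wt_cont s).intervalIntegrable _ _)
    intro x _
    have := mul_le_mul_of_nonneg_right (Real.cos_le_one (2 * x)) (Wt_nonneg s x)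
    linarith
  have hJ2 : -I ≤ J := by
    rw [hI, ← intervalIntegral.integral_neg]
    apply intervalIntegral.integral_mono_on (by linarith [Real.pi_pos])
      ((Wt_cont s).intervalIntegrable _ _).neg (hint _ (by fun_prop))
    intro x _
    have := mul_le_mul_of_nonneg_right (Real.neg_one_le_cos (2 * x)) (Wt_nonneg s x)
    simp only [Pi.neg_apply]
    linarith
  have hr1 : -1 ≤ J / I := by rw [le_div_iff₀ hIpos]; linarith
  have hr2 : J / I ≤ 1 := by rw [div_le_iff₀ hIpos]; linarith
  set α := Real.arccos (J / I) / 2 with hα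
  have hα2 : Real.cos (2 * α) = J / I := by
    rw [hα, show 2 * (Real.arccos (J / I) / 2) = Real.arccos (J / I) by ring,
      Real.cos_arccos hr1 hr2]
  have hα0 : 0 ≤ α := by have := Real.arccos_nonneg (J / I); rw [hα]; linarith
  have hα1 : α ≤ π / 2 := by have := Real.arccos_le_pi (J / I); rw [hα]; linarith
  refine ⟨![-α, α, π - α, π + α], I / 4, ?_, ?_⟩
  · intro i j hij
    fin_cases i <;> fin_cases j <;> simp at hij ⊢ <;> linarith
  apply quad_of_basis (Wt_isWeight hs)
  · intro k hk
    have hsum : ∑ i : Fin 4, Real.cos ((k : ℝ) * (![-α, α, π - α, π + α] : Fin 4 → ℝ) i) =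
        Real.cos (k * -α) + Real.cos (k * α) + Real.cos (k * (π - α)) +
          Real.cos (k * (π + α)) := by
      rw [Fin.sum_univ_four]; simp
    rw [hsum]
    interval_cases k
    · simp; rw [← hI]; ring
    · have h0 : ∫ θ in (-π)..π, Real.cos ((1 : ℕ) * θ) * Wt s θ = 0 := by
        apply integral_antiperiodic
        intro θ
        rw [Wt_add_pi]
        simp [Real.cos_add_pi]
      rw [h0]
      have e1 : Real.cos (((1 : ℕ) : ℝ) * (π - α)) = - Real.cos α := by
        simp [Real.cos_pi_sub]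
      have e2 : Real.cos (((1 : ℕ) : ℝ) * (π + α)) = - Real.cos α := by
        rw [add_comm]; simp [Real.cos_add_pi]
      rw [e1, e2]; simp
    · have e0 : Real.cos (((2 : ℕ) : ℝ) * -α) = J / I := by
        rw [← hα2]; push_cast; rw [mul_neg, Real.cos_neg]
      have e1 : Real.cos (((2 : ℕ) : ℝ) * α) = J / I := by
        rw [← hα2]; push_cast; rfl
      have e2 : Real.cos (((2 : ℕ) : ℝ) * (π - α)) = J / I := by
        rw [← hα2]; push_cast
        rw [show 2 * (π - α) = 2 * π - 2 * α by ring, Real.cos_two_pi_sub]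
      have e3 : Real.cos (((2 : ℕ) : ℝ) * (π + α)) = J / I := by
        rw [← hα2]; push_cast
        rw [show 2 * (π + α) = 2 * α + 2 * π by ring, Real.cos_add_two_pi]
      rw [e0, e1, e2, e3]
      have : ∫ θ in (-π)..π, Real.cos (((2 : ℕ) : ℝ) * θ) * Wt s θ = J := by
        rw [hJ]; push_cast; rfl
      rw [this]
      field_simp
      ring
  · intro k hk
    have hsum : ∑ i : Fin 4, Real.sin ((k : ℝ) * (![-α, α, π - α, π + α] : Fin 4 → ℝ) i) =
        Real.sin (k * -α) + Real.sin (k * α) + Real.sin (k * (π - α)) +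
          Real.sin (k * (π + α)) := by
      rw [Fin.sum_univ_four]; simp
    rw [hsum]
    have h0 : ∫ θ in (-π)..π, Real.sin ((k : ℕ) * θ) * Wt s θ = 0 := by
      apply integral_odd
      intro θ
      rw [Wt_neg, mul_neg, Real.sin_neg]
      ring
    rw [h0]
    interval_cases k
    · simp
    · have e1 : Real.sin (((1 : ℕ) : ℝ) * (π - α)) = Real.sin α := by
        simp [Real.sin_pi_sub]
      have e2 : Real.sin (((1 : ℕ) : ℝ) * (π + α)) = - Real.sin α := by
        rw [add_comm]; simp [Real.sin_add_pi]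
      rw [e1, e2]; simp
    · have e2 : Real.sin (((2 : ℕ) : ℝ) * (π - α)) = - Real.sin (2 * α) := by
        push_cast
        rw [show 2 * (π - α) = -(2 * α) + 2 * π by ring, Real.sin_add_two_pi, Real.sin_neg]
      have e3 : Real.sin (((2 : ℕ) : ℝ) * (π + α)) = Real.sin (2 * α) := by
        push_cast
        rw [show 2 * (π + α) = 2 * α + 2 * π by ring, Real.sin_add_two_pi]
      rw [e2, e3]
      push_cast
      rw [mul_neg, Real.sin_neg]
      ring

/-- The half of the weight on `{cos > 0}`. -/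
noncomputable def Wp (s : ℝ) (θ : ℝ) : ℝ := if 0 < Real.cos θ then Wt s θ else 0

theorem ht_meas (a b : ℝ) : Measurable (ht a b) := by
  unfold ht
  exact Measurable.ite (measurableSet_lt measurable_const Real.measurable_cos)
    measurable_const measurable_const

theorem Wp_meas (s : ℝ) : Measurable (Wp s) := by
  unfold Wp
  exact Measurable.ite (measurableSet_lt measurable_const Real.measurable_cos)
    (Wt_cont s).measurable measurable_const

theorem Wt_le_sq (s θ : ℝ) : Wt s θ ≤ s ^ 2 := by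
  unfold Wt
  apply max_le
  · nlinarith [sq_nonneg (Real.sin θ)]
  · positivity

theorem Wp_nonneg (s θ : ℝ) : 0 ≤ Wp s θ := by
  unfold Wp; split_ifs
  · exact Wt_nonneg s θ
  · exact le_rfl

theorem Wp_le (s θ : ℝ) : Wp s θ ≤ s ^ 2 := by
  unfold Wp; split_ifs
  · exact Wt_le_sq s θ
  · positivity

theorem int_bdd {g : ℝ → ℝ} (hg : Measurable g) {C : ℝ} (hC : ∀ θ, |g θ| ≤ C) (a b : ℝ) :
    IntervalIntegrable g volume a b := by
  apply IntervalIntegrable.mono_fun (intervalIntegrable_const (c := C))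
    hg.aestronglyMeasurable
  apply Filter.Eventually.of_forall
  intro x
  show ‖g x‖ ≤ ‖C‖
  rw [Real.norm_eq_abs, Real.norm_eq_abs]
  exact (hC x).trans (le_abs_self C)

theorem Wp_int (s a b : ℝ) : IntervalIntegrable (Wp s) volume a b :=
  int_bdd (Wp_meas s) (fun θ => by rw [abs_of_nonneg (Wp_nonneg s θ)]; exact Wp_le s θ) a b

/-- For `s < 1`, the weight vanishes where `cos = 0`. -/
theorem Wt_eq_zero {s θ : ℝ} (hs0 : 0 < s) (hs : s < 1) (h : Real.cos θ = 0) : Wt s θ = 0 := by
  unfold Wt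
  apply max_eq_right
  have := Real.sin_sq_add_cos_sq θ
  rw [h] at this
  nlinarith

/-- decomposition of `Wt` -/
theorem Wt_split {s : ℝ} (hs0 : 0 < s) (hs : s < 1) (θ : ℝ) :
    Wt s θ = Wp s θ + Wp s (θ + π) := by
  unfold Wp
  rw [Wt_add_pi, Real.cos_add_pi]
  rcases lt_trichotomy (Real.cos θ) 0 with h | h | h
  · rw [if_neg (not_lt.mpr h.le), if_pos (by linarith)]; ring
  · rw [Wt_eq_zero hs0 hs h]; simp
  · rw [if_pos h, if_neg (by linarith)]; ring

theorem htWt {s : ℝ} (hs0 : 0 < s) (hs : s < 1) (a b θ : ℝ) :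
    ht a b θ * Wt s θ = a * Wp s θ + b * Wp s (θ + π) := by
  unfold Wp ht
  rw [Wt_add_pi, Real.cos_add_pi]
  rcases lt_trichotomy (Real.cos θ) 0 with h | h | h
  · rw [if_neg (not_lt.mpr h.le), if_neg (not_lt.mpr h.le), if_pos (by linarith)]; ring
  · rw [Wt_eq_zero hs0 hs h]; simp
  · rw [if_pos h, if_pos h, if_neg (by linarith)]; ring

theorem Wp_per (s : ℝ) : Function.Periodic (Wp s) (2 * π) := by
  intro θ
  unfold Wp
  rw [Real.cos_add_two_pi]
  have : θ + 2 * π = θ + π + π := by ring
  rw [this, Wt_add_pi, Wt_add_pi]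

/-- The bound below for the number of nodes of the perturbed weight. -/
theorem no_quad {s a b : ℝ} (hs0 : 0 < s) (hs : s < 1) (ha : 0 < a) (hb : 0 < b) (K : ℕ)
    (hK : ∀ N : ℕ, ∀ k : ℤ, 0 < N → N ≤ K →
      ((K : ℝ) + 1) * s ^ 2 < |(a - b) / (a + b) - (k : ℝ) / N|) :
    ∀ N ≤ K, ¬ HasQuad (fun θ => ht a b θ * Wt s θ) 2 N := by
  rintro N hNK ⟨t, lam, -, hq⟩
  have hpi := Real.pi_pos
  -- integrals
  set A := ∫ θ in (-π)..π, Wp s θ with hA
  set B := ∫ θ in (-π)..π, Real.cos θ * Wp s θ with hB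
  have hAshift : ∫ θ in (-π)..π, Wp s (θ + π) = A := integral_shift (Wp_per s)
  have hWp' : IntervalIntegrable (fun θ => Wp s (θ + π)) volume (-π) π :=
    int_bdd (g := fun θ => Wp s (θ + π)) ((Wp_meas s).comp (measurable_id.add_const π))
      (C := s ^ 2)
      (fun θ => by rw [abs_of_nonneg (Wp_nonneg s (θ + π))]; exact Wp_le s (θ + π)) _ _
  have hcW : IntervalIntegrable (fun θ => Real.cos θ * Wp s θ) volume (-π) π :=
    (Wp_int s _ _).continuousOn_mul (by fun_prop)
  have hcW' : IntervalIntegrable (fun θ => Real.cos θ * Wp s (θ + π)) volume (-π) π :=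
    hWp'.continuousOn_mul (by fun_prop)
  have hApos : 0 < A := by
    have h1 := (Wt_isWeight hs0).integral_pos
    have h2 : ∫ θ in (-π)..π, Wt s θ = 2 * A := by
      have : (fun θ => Wt s θ) = fun θ => Wp s θ + Wp s (θ + π) := by
        ext θ; exact Wt_split hs0 hs θ
      rw [this, intervalIntegral.integral_add (Wp_int s _ _) hWp', hAshift]
      ring
    linarith
  have hBshift : ∫ θ in (-π)..π, Real.cos θ * Wp s (θ + π) = -B := by
    have hp : Function.Periodic (fun θ => Real.cos θ * Wp s θ) (2 * π) := by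
      intro θ
      simp only [Real.cos_add_two_pi, Wp_per s θ]
    have h := integral_shift hp
    simp only [Real.cos_add_pi, neg_mul, intervalIntegral.integral_neg] at h
    linarith
  -- the two sided bound on B
  have hWpsin : ∀ θ, Real.sin θ ^ 2 * Wp s θ ≤ s ^ 2 * Wp s θ := by
    intro θ
    unfold Wp
    split_ifs
    · exact Wt_le θ
    · simp
  have hBA : B ≤ A := by
    apply intervalIntegral.integral_mono_on (by linarith) hcW (Wp_int s _ _)
    intro x _
    have := mul_le_mul_of_nonneg_right (Real.cos_le_one x) (Wp_nonneg s x)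
    linarith
  have hBA' : (1 - s ^ 2) * A ≤ B := by
    rw [hA, ← intervalIntegral.integral_const_mul]
    apply intervalIntegral.integral_mono_on (by linarith) ((Wp_int s _ _).const_mul _) hcW
    intro x _
    by_cases hc : 0 < Real.cos x
    · have h1 := hWpsin x
      have h2 : Real.cos x ^ 2 * Wp s x ≤ Real.cos x * Wp s x := by
        apply mul_le_mul_of_nonneg_right _ (Wp_nonneg s x)
        nlinarith [Real.cos_le_one x]
      have h3 : Real.cos x ^ 2 = 1 - Real.sin x ^ 2 := Real.cos_sq' x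
      rw [h3] at h2
      nlinarith
    · have : Wp s x = 0 := by unfold Wp; rw [if_neg hc]
      rw [this]; simp
  -- the mass identity
  have h0 : ∫ θ in (-π)..π, ht a b θ * Wt s θ = (a + b) * A := by
    have : (fun θ => ht a b θ * Wt s θ) = fun θ => a * Wp s θ + b * Wp s (θ + π) := by
      ext θ; exact htWt hs0 hs a b θ
    rw [this, intervalIntegral.integral_add ((Wp_int s _ _).const_mul _) (hWp'.const_mul _),
      intervalIntegral.integral_const_mul, intervalIntegral.integral_const_mul, hAshift]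
    ring
  have h1 : ∫ θ in (-π)..π, Real.cos θ * (ht a b θ * Wt s θ) = (a - b) * B := by
    have : (fun θ => Real.cos θ * (ht a b θ * Wt s θ)) =
        fun θ => a * (Real.cos θ * Wp s θ) + b * (Real.cos θ * Wp s (θ + π)) := by
      ext θ; rw [htWt hs0 hs a b θ]; ring
    rw [this, intervalIntegral.integral_add (hcW.const_mul _) (hcW'.const_mul _),
      intervalIntegral.integral_const_mul, intervalIntegral.integral_const_mul, hBshift]
    ring
  have hint : IntervalIntegrable (fun θ => ht a b θ * Wt s θ) volume (-π) π := by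
    have : (fun θ => ht a b θ * Wt s θ) = fun θ => a * Wp s θ + b * Wp s (θ + π) := by
      ext θ; exact htWt hs0 hs a b θ
    rw [this]
    exact ((Wp_int s _ _).const_mul _).add (hWp'.const_mul _)
  have h2 : ∫ θ in (-π)..π, (1 - Real.cos (2 * θ)) * (ht a b θ * Wt s θ) ≤
      2 * s ^ 2 * ((a + b) * A) := by
    rw [← h0, ← intervalIntegral.integral_const_mul]
    apply intervalIntegral.integral_mono_on (by linarith)
      (hint.continuousOn_mul (by fun_prop)) (hint.const_mul _)
    intro x _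
    have e : 1 - Real.cos (2 * x) = 2 * Real.sin x ^ 2 := by
      rw [Real.cos_two_mul, Real.cos_sq']; ring
    rw [e]
    have h3 : 0 ≤ ht a b x := by unfold ht; split_ifs <;> linarith
    have := mul_le_mul_of_nonneg_left (Wt_le (s := s) x) h3
    nlinarith
  -- use of the quadrature formula
  have q0 := hq (fun _ => 1) (by
    have : (fun _ : ℝ => (1 : ℝ)) = fun θ : ℝ => Real.cos ((0 : ℕ) * θ) := by ext θ; simp
    rw [this]; exact Submodule.subset_span (Or.inl ⟨0, by omega, rfl⟩))
  have q1 := hq (fun θ => Real.cos θ) (by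
    have : (fun θ : ℝ => Real.cos θ) = fun θ : ℝ => Real.cos ((1 : ℕ) * θ) := by ext θ; simp
    rw [this]; exact Submodule.subset_span (Or.inl ⟨1, by omega, rfl⟩))
  have q2 := hq (fun θ => 1 - Real.cos (2 * θ)) (by
    have : (fun θ : ℝ => 1 - Real.cos (2 * θ)) =
        (fun θ : ℝ => Real.cos ((0 : ℕ) * θ)) - fun θ : ℝ => Real.cos ((2 : ℕ) * θ) := by
      ext θ; simp
    rw [this]
    exact Submodule.sub_mem _ (Submodule.subset_span (Or.inl ⟨0, by omega, rfl⟩))
      (Submodule.subset_span (Or.inl ⟨2, by omega, rfl⟩)))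
  simp only [one_mul, Finset.sum_const, Finset.card_univ, Fintype.card_fin, nsmul_eq_mul,
    mul_one] at q0
  rw [h0] at q0
  rw [h1] at q1
  have hab : 0 < (a + b) * A := by positivity
  have hN : 0 < N := by
    rcases Nat.eq_zero_or_pos N with h | h
    · rw [h, Nat.cast_zero, mul_zero] at q0
      linarith
    · exact h
  have hNR : (0 : ℝ) < N := by exact_mod_cast hN
  have hlam : 0 < lam := by
    by_contra hl
    have hl := not_lt.mp hl
    nlinarith
  -- all nodes are close to the support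
  have hsin : ∀ i, Real.sin (t i) ^ 2 ≤ N * s ^ 2 := by
    intro i
    have h3 : 1 - Real.cos (2 * t i) ≤ ∑ j, (1 - Real.cos (2 * t j)) := by
      apply Finset.single_le_sum (f := fun j => 1 - Real.cos (2 * t j))
      · intro j _
        have := Real.cos_le_one (2 * t j)
        linarith
      · exact Finset.mem_univ i
    have h4 : lam * ∑ j, (1 - Real.cos (2 * t j)) ≤ 2 * s ^ 2 * (lam * N) := by
      rw [← q2, ← q0]; exact h2
    have h5 : ∑ j, (1 - Real.cos (2 * t j)) ≤ 2 * s ^ 2 * N := by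
      by_contra hcon
      have hcon := not_le.mp hcon
      nlinarith
    have e : 1 - Real.cos (2 * t i) = 2 * Real.sin (t i) ^ 2 := by
      rw [Real.cos_two_mul, Real.cos_sq']; ring
    rw [e] at h3
    linarith
  -- signs
  have hsig : ∀ x : ℝ, ∃ e : ℤ, |Real.cos x - e| ≤ Real.sin x ^ 2 := by
    intro x
    have hx : Real.sin x ^ 2 = 1 - Real.cos x ^ 2 := Real.sin_sq x
    rcases le_total 0 (Real.cos x) with h | h
    · refine ⟨1, ?_⟩
      have := Real.cos_le_one x
      rw [abs_le, hx]
      constructor <;> push_cast <;> nlinarith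
    · refine ⟨-1, ?_⟩
      have := Real.neg_one_le_cos x
      rw [abs_le, hx]
      constructor <;> push_cast <;> nlinarith
  choose e he using hsig
  set k : ℤ := ∑ i, e (t i) with hk
  have hsum : |∑ i, Real.cos (t i) - (k : ℝ)| ≤ N * (N * s ^ 2) := by
    have : ∑ i, Real.cos (t i) - (k : ℝ) = ∑ i, (Real.cos (t i) - (e (t i) : ℝ)) := by
      rw [Finset.sum_sub_distrib, hk]; push_cast; rfl
    rw [this]
    calc |∑ i, (Real.cos (t i) - (e (t i) : ℝ))|
        ≤ ∑ i, |Real.cos (t i) - (e (t i) : ℝ)| := Finset.abs_sum_le_sum_abs _ _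
      _ ≤ ∑ _i : Fin N, (N * s ^ 2) := Finset.sum_le_sum fun i _ => (he (t i)).trans (hsin i)
      _ = N * (N * s ^ 2) := by simp
  -- the mean of the cosines
  have hmean : (∑ i, Real.cos (t i)) / N = (a - b) / (a + b) * (B / A) := by
    have h6 : lam * ∑ i, Real.cos (t i) = (a - b) * B := by rw [q1]
    have h7 : lam = (a + b) * A / N := by rw [q0]; field_simp
    rw [h7] at h6
    field_simp
    field_simp at h6
    linarith
  have hBA1 : B / A ≤ 1 := by rw [div_le_one hApos]; exact hBA
  have hBA2 : 1 - s ^ 2 ≤ B / A := by rw [le_div_iff₀ hApos]; exact hBA'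
  have hrho : |(a - b) / (a + b)| ≤ 1 := by
    rw [abs_div, abs_of_pos (show 0 < a + b by linarith), div_le_one (by linarith), abs_le]
    constructor <;> linarith
  have hfin : |(a - b) / (a + b) - (k : ℝ) / N| ≤ ((K : ℝ) + 1) * s ^ 2 := by
    have e1 : (a - b) / (a + b) - (k : ℝ) / N =
        (a - b) / (a + b) * (1 - B / A) + (∑ i, Real.cos (t i) - (k : ℝ)) / N := by
      rw [sub_div (∑ i, Real.cos (t i)), hmean]; ring
    have e2 : |(a - b) / (a + b) * (1 - B / A)| ≤ s ^ 2 := by
      rw [abs_mul, abs_of_nonneg (show 0 ≤ 1 - B / A by linarith)]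
      calc |(a - b) / (a + b)| * (1 - B / A) ≤ 1 * (1 - B / A) := by
            apply mul_le_mul_of_nonneg_right hrho; linarith
        _ ≤ s ^ 2 := by linarith
    have e3 : |(∑ i, Real.cos (t i) - (k : ℝ)) / N| ≤ N * s ^ 2 := by
      rw [abs_div, abs_of_pos hNR, div_le_iff₀ hNR]
      linarith
    have e4 : (N : ℝ) ≤ K := by exact_mod_cast hNK
    calc |(a - b) / (a + b) - (k : ℝ) / N| ≤ _ := by rw [e1]; exact abs_add_le _ _
      _ ≤ s ^ 2 + N * s ^ 2 := add_le_add e2 e3
      _ ≤ ((K : ℝ) + 1) * s ^ 2 := by nlinarith [sq_nonneg s]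
  exact absurd hfin (not_le.mpr (hK N k hN hNK))

theorem gap {ρ : ℝ} (hρ : Irrational ρ) (K : ℕ) :
    ∃ η : ℝ, 0 < η ∧ ∀ N : ℕ, ∀ k : ℤ, 0 < N → N ≤ K → η ≤ |ρ - (k : ℝ) / N| := by
  induction K with
  | zero => exact ⟨1, one_pos, fun N k h1 h2 => by omega⟩
  | succ K ih =>
    obtain ⟨η, hη, h⟩ := ih
    set x : ℝ := ((K + 1 : ℕ) : ℝ) * ρ with hx
    have hK0 : (0 : ℝ) < ((K + 1 : ℕ) : ℝ) := by positivity
    have hxirr : Irrational x := by
      rw [hx]; exact_mod_cast hρ.natCast_mul (Nat.succ_ne_zero K)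
    have hpos : 0 < |x - round x| := by
      rw [abs_pos, sub_ne_zero]
      exact hxirr.ne_int _
    refine ⟨min η (|x - round x| / ((K + 1 : ℕ) : ℝ)), lt_min hη (div_pos hpos hK0), ?_⟩
    intro N k h1 h2
    rcases Nat.lt_or_ge K N with h3 | h3
    · have hN : N = K + 1 := by omega
      subst hN
      refine (min_le_right _ _).trans ?_
      rw [div_le_iff₀ hK0]
      have e : |ρ - (k : ℝ) / ((K + 1 : ℕ) : ℝ)| * ((K + 1 : ℕ) : ℝ) = |x - k| := by
        rw [← abs_of_pos hK0, ← abs_mul, abs_of_pos hK0, hx]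
        congr 1
        field_simp
      rw [e]
      exact round_le x k
    · exact (min_le_left _ _).trans (h N k h1 h3)

/-- **Main theorem.**  For all `0 < m < M` the least number of nodes of an equal weight
trigonometric quadrature of degree `2` can be at most `4` for a weight `W` and larger than any
prescribed `K` for `h W`, where `m < h < M`.  So no constants depending on `m`, `M` only exist. -/
theorem result (m M : ℝ) (hm : 0 < m) (hmM : m < M) :
    (∀ K : ℕ, ∃ W h : ℝ → ℝ, IsWeight W ∧ Measurable h ∧ Function.Periodic h (2 * π) ∧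
      (∀ θ, m < h θ ∧ h θ < M) ∧ minNodes W 2 ≤ 4 ∧
      (K : ℕ∞) < minNodes (fun θ => h θ * W θ) 2) ∧
    ¬ ∃ c C : ℝ, 0 < c ∧ 0 < C ∧ ∀ (W h : ℝ → ℝ) (n : ℕ), IsWeight W → Measurable h →
      Function.Periodic h (2 * π) → (∀ᵐ θ, m < h θ ∧ h θ < M) → 1 ≤ n →
      (ENNReal.ofReal c * (minNodes W n : ENNReal) ≤
          (minNodes (fun θ => h θ * W θ) n : ENNReal) ∧
        (minNodes (fun θ => h θ * W θ) n : ENNReal) ≤
          ENNReal.ofReal C * (minNodes W n : ENNReal)) ∧
      (ENNReal.ofReal c * (minAllNodes W n : ENNReal) ≤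
          (minAllNodes (fun θ => h θ * W θ) n : ENNReal) ∧
        (minAllNodes (fun θ => h θ * W θ) n : ENNReal) ≤
          ENNReal.ofReal C * (minAllNodes W n : ENNReal)) := by
  have main : ∀ K : ℕ, ∃ W h : ℝ → ℝ, IsWeight W ∧ Measurable h ∧
      Function.Periodic h (2 * π) ∧
      (∀ θ, m < h θ ∧ h θ < M) ∧ minNodes W 2 ≤ 4 ∧
      (K : ℕ∞) < minNodes (fun θ => h θ * W θ) 2 := by
    intro K
    set b : ℝ := (m + M) / 2 with hb
    have hb0 : 0 < b := by rw [hb]; linarith
    have hbm : m < b := by rw [hb]; linarith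
    have hbM : b < M := by rw [hb]; linarith
    obtain ⟨ρ, hρirr, hρ0, hρ1⟩ := exists_irrational_btwn
      (show (0 : ℝ) < (M - b) / (M + b) by apply div_pos <;> linarith)
    have hρ2 : ρ * (M + b) < M - b := by
      rw [lt_div_iff₀ (by linarith)] at hρ1; exact hρ1
    have hρlt : ρ < 1 := by nlinarith
    set a : ℝ := b * (1 + ρ) / (1 - ρ) with ha
    have hρ3 : 0 < 1 - ρ := by linarith
    have haM : a < M := by
      rw [ha, div_lt_iff₀ hρ3]; nlinarith
    have hab : b < a := by
      rw [ha, lt_div_iff₀ hρ3]; nlinarith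
    have hρ : (a - b) / (a + b) = ρ := by
      have h1 : a * (1 - ρ) = b * (1 + ρ) := by rw [ha]; field_simp
      rw [div_eq_iff (by linarith)]
      linarith
    obtain ⟨η, hη, hgap⟩ := gap hρirr K
    set s : ℝ := Real.sqrt (min (1 / 4) (η / (2 * ((K : ℝ) + 1)))) with hs
    have hmin : 0 < min (1 / 4 : ℝ) (η / (2 * ((K : ℝ) + 1))) := by
      apply lt_min (by norm_num); positivity
    have hs0 : 0 < s := Real.sqrt_pos.mpr hmin
    have hs2 : s ^ 2 = min (1 / 4) (η / (2 * ((K : ℝ) + 1))) := Real.sq_sqrt hmin.le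
    have hs1 : s < 1 := by
      have : s ^ 2 ≤ 1 / 4 := by rw [hs2]; exact min_le_left _ _
      nlinarith
    have hsη : ((K : ℝ) + 1) * s ^ 2 < η := by
      have : s ^ 2 ≤ η / (2 * ((K : ℝ) + 1)) := by rw [hs2]; exact min_le_right _ _
      have hK1 : (0 : ℝ) < (K : ℝ) + 1 := by positivity
      calc ((K : ℝ) + 1) * s ^ 2 ≤ ((K : ℝ) + 1) * (η / (2 * ((K : ℝ) + 1))) :=
            mul_le_mul_of_nonneg_left this hK1.le
        _ = η / 2 := by field_simp
        _ < η := by linarith
    have hnq := no_quad (s := s) (a := a) (b := b) hs0 hs1 (by linarith) hb0 K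
      (fun N k h1 h2 => by rw [hρ]; exact hsη.trans_le (hgap N k h1 h2))
    refine ⟨Wt s, ht a b, Wt_isWeight hs0, ht_meas a b, ?_, ?_, ?_, ?_⟩
    · intro θ
      unfold ht
      rw [Real.cos_add_two_pi]
    · intro θ
      unfold ht
      split_ifs
      · exact ⟨by linarith, haM⟩
      · exact ⟨hbm, hbM⟩
    · exact iInf₂_le 4 (quad_four hs0)
    · have h1 : ((K + 1 : ℕ) : ℕ∞) ≤ minNodes (fun θ => ht a b θ * Wt s θ) 2 := by
        apply le_iInf₂
        intro N hN
        by_contra hlt
        have hlt' : N < K + 1 := by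
          have := not_le.mp hlt
          exact_mod_cast this
        exact hnq N (by omega) hN
      refine lt_of_lt_of_le ?_ h1
      exact_mod_cast Nat.lt_succ_self K
  refine ⟨main, ?_⟩
  rintro ⟨c, C, hc, hC, h⟩
  obtain ⟨K, hK⟩ := exists_nat_gt (4 * C)
  obtain ⟨W, g, hW, hgm, hgp, hgb, h4, hlt⟩ := main K
  have h2 := (h W g 2 hW hgm hgp (Filter.Eventually.of_forall hgb) (by norm_num)).1.2
  have h3 : ((K : ℕ∞) : ENNReal) < (minNodes (fun θ => g θ * W θ) 2 : ENNReal) :=
    ENat.toENNReal_lt.mpr hlt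
  have h5 : (minNodes W 2 : ENNReal) ≤ ((4 : ℕ∞) : ENNReal) := ENat.toENNReal_le.mpr h4
  have h6 : ((K : ℕ∞) : ENNReal) < ENNReal.ofReal C * ((4 : ℕ∞) : ENNReal) :=
    lt_of_lt_of_le h3 (h2.trans (mul_le_mul_right h5 _))
  have h7 : ENNReal.ofReal C * ((4 : ℕ∞) : ENNReal) = ENNReal.ofReal (4 * C) := by
    rw [mul_comm, ENNReal.ofReal_mul (by norm_num)]
    congr 1
    simp
  rw [h7] at h6
  have h8 : ((K : ℕ∞) : ENNReal) = ENNReal.ofReal K := by simp
  rw [h8, ENNReal.ofReal_lt_ofReal_iff (by positivity)] at h6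
  linarith

end Pool.Agent.Results.MP_205740_an.NodeCountJump
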